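import Pool.Agent.H494.BRConcave

set_option autoImplicit false

open Filter Topology Polynomial Pool.Agent.H494.BR

namespace Pool.Agent.Results.MP_737f38_pr.CriticalValueOne

/-! The critical Rényi order for concavity along affine paths of Bernoulli sums exists and
equals `1` (not `2`): `φ_q` is concave along every affine path for `0 < q ≤ 1`, and for every
`q > 1` some affine path makes `φ_q` convex and not affine. -/

/-- The mass function of a Bernoulli sum: `bernSum p k` is the probability that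
`X₁ + ⋯ + X_m = k` for independent `X_i ∼ Bernoulli (p i)`, i.e. the sum over all
`k`-element sets `A` of indices of `∏_{i ∈ A} p i * ∏_{i ∉ A} (1 - p i)`. -/
noncomputable def bernSum {m : ℕ} (p : Fin m → ℝ) (k : ℕ) : ℝ :=
  ∑ A ∈ (Finset.univ : Finset (Fin m)).powersetCard k,
    (∏ i ∈ A, p i) * ∏ i ∈ Aᶜ, (1 - p i)

/-- The `q`-Rényi entropy of a mass function on `{0, …, m}` (Shannon entropy for `q = 1`). -/
noncomputable def renyi (q : ℝ) (m : ℕ) (P : ℕ → ℝ) : ℝ :=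
  if q = 1 then - ∑ k ∈ Finset.range (m + 1), P k * Real.log (P k)
  else (1 / (1 - q)) * Real.log (∑ k ∈ Finset.range (m + 1), P k ^ q)

/-- The affine path between two parameter vectors. -/
def path {m : ℕ} (p0 p1 : Fin m → ℝ) (t : ℝ) : Fin m → ℝ :=
  fun i => (1 - t) * p0 i + t * p1 i

/-- `φ_q(t) = H_q(P_{p(t)})` along the affine path from `p0` to `p1`. -/
noncomputable def phi (q : ℝ) {m : ℕ} (p0 p1 : Fin m → ℝ) (t : ℝ) : ℝ :=
  renyi q m (bernSum (path p0 p1 t))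

/-- Property (i) for the value `c`. -/
def PropI (c : ℝ) : Prop :=
  ∀ q : ℝ, 0 < q → q ≤ c → ∀ m : ℕ, 1 ≤ m → ∀ p0 p1 : Fin m → ℝ,
    (∀ i, p0 i ∈ Set.Icc (0:ℝ) 1) → (∀ i, p1 i ∈ Set.Icc (0:ℝ) 1) →
      ConcaveOn ℝ (Set.Icc (0:ℝ) 1) (phi q p0 p1)

/-- Property (ii) for the value `c`. -/
def PropII (c : ℝ) : Prop :=
  ∀ q : ℝ, c < q → ∃ m : ℕ, 1 ≤ m ∧ ∃ p0 p1 : Fin m → ℝ,
    (∀ i, p0 i ∈ Set.Icc (0:ℝ) 1) ∧ (∀ i, p1 i ∈ Set.Icc (0:ℝ) 1) ∧
      ConvexOn ℝ (Set.Icc (0:ℝ) 1) (phi q p0 p1) ∧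
        ¬ ∃ α β : ℝ, ∀ t ∈ Set.Icc (0:ℝ) 1, phi q p0 p1 t = α + β * t


theorem aux_convex_near (f : ℝ → ℝ) (hf : ContDiffAt ℝ 2 f 0) (hpos : 0 < deriv (deriv f) 0) :
    ∃ δ0 > 0, ∀ δ > 0, δ ≤ δ0 → StrictConvexOn ℝ (Set.Icc (-δ) δ) f := by
  have h1 : ContDiffAt ℝ 1 (deriv f) 0 := hf.derivWithin (by norm_num)
  have h2 : ContDiffAt ℝ 0 (deriv (deriv f)) 0 := h1.derivWithin (by norm_num)
  have h3 : ∀ᶠ x in 𝓝 (0:ℝ), 0 < deriv (deriv f) x :=
    h2.continuousAt.eventually (lt_mem_nhds hpos)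
  have h4 : ∀ᶠ x in 𝓝 (0:ℝ), ContDiffAt ℝ 2 f x := hf.eventually (by simp)
  obtain ⟨δ0, hδ0, hb⟩ := Metric.eventually_nhds_iff.1 (h3.and h4)
  refine ⟨δ0 / 2, by positivity, fun δ hδ hle => ?_⟩
  have hmem : ∀ x ∈ Set.Icc (-δ) δ, dist x 0 < δ0 := by
    intro x hx
    rw [Real.dist_eq, sub_zero, abs_lt]
    constructor <;> linarith [hx.1, hx.2]
  apply strictConvexOn_of_deriv2_pos (convex_Icc _ _)
  · intro x hx
    exact (hb (hmem x hx)).2.continuousAt.continuousWithinAt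
  · intro x hx
    exact (hb (hmem x (interior_subset hx))).1

theorem aux_sq (L : ℝ → ℝ) (hL : ContDiffAt ℝ 2 L 0) (hpos : 0 < deriv L 0) :
    ContDiffAt ℝ 2 (fun τ => L (τ ^ 2)) 0 ∧ 0 < deriv (deriv (fun τ => L (τ ^ 2))) 0 := by
  have hsq : ContDiffAt ℝ 2 (fun τ : ℝ => τ ^ 2) 0 := by fun_prop
  have hL' : ContDiffAt ℝ 2 L ((fun τ : ℝ => τ ^ 2) 0) := by simpa using hL
  refine ⟨ContDiffAt.comp (g := L) (f := fun τ : ℝ => τ ^ 2) 0 hL' hsq, ?_⟩
  have h4 : ∀ᶠ x in 𝓝 (0:ℝ), ContDiffAt ℝ 2 L x := hL.eventually (by simp)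
  have h5 : ∀ᶠ τ in 𝓝 (0:ℝ), ContDiffAt ℝ 2 L (τ ^ 2) := by
    have : Tendsto (fun τ : ℝ => τ ^ 2) (𝓝 0) (𝓝 0) := by
      have := (continuous_pow (M := ℝ) 2).tendsto 0
      simpa using this
    exact this.eventually h4
  have h6 : deriv (fun τ => L (τ ^ 2)) =ᶠ[𝓝 0] fun τ => deriv L (τ ^ 2) * (2 * τ) := by
    filter_upwards [h5] with τ hτ
    have hd : HasDerivAt L (deriv L (τ ^ 2)) (τ ^ 2) :=
      (hτ.differentiableAt (by norm_num)).hasDerivAt
    have hp : HasDerivAt (fun τ : ℝ => τ ^ 2) (2 * τ) τ := by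
      simpa using hasDerivAt_pow 2 τ
    exact (HasDerivAt.comp (h₂ := L) (h := fun τ : ℝ => τ ^ 2) τ hd hp).deriv
  rw [h6.deriv_eq]
  have h7 : ContDiffAt ℝ 1 (deriv L) 0 := hL.derivWithin (by norm_num)
  have h8 : DifferentiableAt ℝ (fun τ => deriv L (τ ^ 2)) 0 := by
    have hL'' : DifferentiableAt ℝ (deriv L) ((fun τ : ℝ => τ ^ 2) 0) := by
      simpa using h7.differentiableAt (by norm_num)
    exact DifferentiableAt.comp (g := deriv L) (f := fun τ : ℝ => τ ^ 2) (0:ℝ) hL'' (hsq.differentiableAt (by norm_num))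
  have h9 : HasDerivAt (fun τ : ℝ => deriv L (τ ^ 2) * (2 * τ))
      (deriv (fun τ => deriv L (τ ^ 2)) 0 * (2 * 0) + deriv L (0 ^ 2) * (2 * 1)) 0 := by
    exact h8.hasDerivAt.mul ((hasDerivAt_id (0:ℝ)).const_mul 2)
  rw [h9.deriv]
  simp
  linarith

noncomputable def Psi (p q y : ℝ) : ℝ :=
  ((1 - p) ^ 2 - y) ^ q + (2 * p * (1 - p) + 2 * y) ^ q + (p ^ 2 - y) ^ q

theorem aux_L (p q : ℝ) (hp : 0 < p) (hp1 : p < 1) (hq : 1 < q)
    (hcond : 2 * (2 * p * (1 - p)) ^ (q - 1) < ((1 - p) ^ 2) ^ (q - 1)) :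
    ContDiffAt ℝ 2 (fun y => (1 / (1 - q)) * Real.log (Psi p q y)) 0 ∧
      0 < deriv (fun y => (1 / (1 - q)) * Real.log (Psi p q y)) 0 := by
  have a0 : 0 < (1 - p) ^ 2 := by have : 0 < 1 - p := by linarith
                                  positivity
  have a1 : 0 < 2 * p * (1 - p) := by have : 0 < 1 - p := by linarith
                                      positivity
  have a2 : 0 < p ^ 2 := by positivity
  have hPsi : 0 < Psi p q 0 := by
    unfold Psi
    simp only [sub_zero, mul_zero, add_zero]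
    have := Real.rpow_pos_of_pos a0 q
    have := Real.rpow_pos_of_pos a1 q
    have := Real.rpow_pos_of_pos a2 q
    linarith
  have hC : ContDiffAt ℝ 2 (Psi p q) 0 := by
    unfold Psi
    refine ContDiffAt.add (ContDiffAt.add ?_ ?_) ?_
    · apply ContDiffAt.rpow_const_of_ne (by fun_prop)
      simp; linarith
    · apply ContDiffAt.rpow_const_of_ne (by fun_prop)
      simp; constructor <;> linarith
    · apply ContDiffAt.rpow_const_of_ne (by fun_prop)
      simp; linarith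
  have hD : HasDerivAt (Psi p q)
      (-(q * ((1 - p) ^ 2) ^ (q - 1)) + 2 * (q * (2 * p * (1 - p)) ^ (q - 1))
        - q * (p ^ 2) ^ (q - 1)) 0 := by
    unfold Psi
    have e0 : HasDerivAt (fun y : ℝ => (1 - p) ^ 2 - y) (-1) 0 := by
      simpa using (hasDerivAt_id (0:ℝ)).const_sub ((1 - p) ^ 2)
    have e1 : HasDerivAt (fun y : ℝ => 2 * p * (1 - p) + 2 * y) 2 0 := by
      simpa using ((hasDerivAt_id (0:ℝ)).const_mul 2).const_add (2 * p * (1 - p))
    have e2 : HasDerivAt (fun y : ℝ => p ^ 2 - y) (-1) 0 := by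
      simpa using (hasDerivAt_id (0:ℝ)).const_sub (p ^ 2)
    have f0 := e0.rpow_const (p := q) (Or.inl (by simp; linarith))
    have f1 := e1.rpow_const (p := q) (Or.inl (by simp; constructor <;> linarith))
    have f2 := e2.rpow_const (p := q) (Or.inl (by simp; linarith))
    simp only [sub_zero, mul_zero, add_zero] at f0 f1 f2
    have h := (f0.add f1).add f2
    refine h.congr_deriv ?_
    ring
  refine ⟨contDiffAt_const.mul (hC.log hPsi.ne'), ?_⟩
  have hE := (hD.log hPsi.ne').const_mul (1 / (1 - q))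
  rw [hE.deriv]
  have b2 := Real.rpow_pos_of_pos a2 (q - 1)
  have hn : -(q * ((1 - p) ^ 2) ^ (q - 1)) + 2 * (q * (2 * p * (1 - p)) ^ (q - 1))
        - q * (p ^ 2) ^ (q - 1) < 0 := by nlinarith
  have h1q : 1 / (1 - q) < 0 := by
    apply div_neg_of_pos_of_neg one_pos; linarith
  exact mul_pos_of_neg_of_neg h1q (div_neg_of_neg_of_pos hn hPsi)

theorem exists_p (q : ℝ) (hq : 1 < q) : ∃ p : ℝ, 0 < p ∧ p < 1 ∧
    2 * (2 * p * (1 - p)) ^ (q - 1) < ((1 - p) ^ 2) ^ (q - 1) := by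
  have hq1 : 0 < q - 1 := by linarith
  have hcont : Tendsto (fun p : ℝ => ((1 - p) ^ 2) ^ (q - 1) - 2 * (2 * p * (1 - p)) ^ (q - 1))
      (𝓝 0) (𝓝 (((1 - 0) ^ 2) ^ (q - 1) - 2 * (2 * 0 * (1 - 0)) ^ (q - 1))) := by
    apply Continuous.tendsto
    refine Continuous.sub ?_ (continuous_const.mul ?_)
    · exact Continuous.rpow_const (by fun_prop) (fun x => Or.inr hq1.le)
    · exact Continuous.rpow_const (by fun_prop) (fun x => Or.inr hq1.le)
  have hlim : ((1 - (0:ℝ)) ^ 2) ^ (q - 1) - 2 * (2 * 0 * (1 - 0)) ^ (q - 1) = 1 := by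
    simp [Real.zero_rpow hq1.ne']
  rw [hlim] at hcont
  have h1 : ∀ᶠ p in 𝓝 (0:ℝ), 0 < ((1 - p) ^ 2) ^ (q - 1) - 2 * (2 * p * (1 - p)) ^ (q - 1) :=
    hcont.eventually (lt_mem_nhds one_pos)
  have h2 : ∀ᶠ p in 𝓝 (0:ℝ), p < 1 := gt_mem_nhds one_pos
  have h3 : ∃ᶠ p in 𝓝[>] (0:ℝ), 0 < p := by
    apply Filter.Eventually.frequently
    exact self_mem_nhdsWithin
  have h4 : ∀ᶠ p in 𝓝[>] (0:ℝ), p < 1 ∧ 0 < ((1 - p) ^ 2) ^ (q - 1) - 2 * (2 * p * (1 - p)) ^ (q - 1) :=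
    (h2.and h1).filter_mono nhdsWithin_le_nhds
  obtain ⟨p, hp, hp1, hp2⟩ := (h3.and_eventually h4).exists
  exact ⟨p, hp, hp1, by linarith⟩

theorem bernSum_two (p : Fin 2 → ℝ) :
    bernSum p 0 = (1 - p 0) * (1 - p 1) ∧
    bernSum p 1 = p 0 * (1 - p 1) + p 1 * (1 - p 0) ∧
    bernSum p 2 = p 0 * p 1 := by
  have c0 : (Finset.univ : Finset (Fin 2)).powersetCard 0 = {∅} := by decide
  have c1 : (Finset.univ : Finset (Fin 2)).powersetCard 1 = {{0}, {1}} := by decide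
  have c2 : (Finset.univ : Finset (Fin 2)).powersetCard 2 = {{0, 1}} := by decide
  have d0 : (∅ : Finset (Fin 2))ᶜ = {0, 1} := by decide
  have d1 : ({0} : Finset (Fin 2))ᶜ = {1} := by decide
  have d2 : ({1} : Finset (Fin 2))ᶜ = {0} := by decide
  have d3 : ({0, 1} : Finset (Fin 2))ᶜ = ∅ := by decide
  refine ⟨?_, ?_, ?_⟩
  · unfold bernSum; rw [c0, Finset.sum_singleton, d0]; simp
  · unfold bernSum; rw [c1, Finset.sum_pair (by decide), d1, d2]; simp
  · unfold bernSum; rw [c2, Finset.sum_singleton, d3]; simp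

theorem propII_one : PropII 1 := by
  intro q hq
  obtain ⟨p, hp, hp1, hcond⟩ := exists_p q hq
  obtain ⟨hC, hpos⟩ := aux_L p q hp hp1 hq hcond
  obtain ⟨hC2, hpos2⟩ := aux_sq _ hC hpos
  obtain ⟨δ0, hδ0, hconv⟩ := aux_convex_near _ hC2 hpos2
  obtain ⟨δ, hδ, hδle, hδp, hδp1⟩ : ∃ δ > 0, δ ≤ δ0 ∧ δ ≤ p ∧ δ ≤ 1 - p :=
    ⟨min δ0 (min p (1 - p)), by
      have : 0 < 1 - p := by linarith
      positivity, min_le_left _ _, (min_le_right _ _).trans (min_le_left _ _),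
      (min_le_right _ _).trans (min_le_right _ _)⟩
  have hsc := hconv δ hδ hδle
  let p0 : Fin 2 → ℝ := ![p + δ, p - δ]
  let p1 : Fin 2 → ℝ := ![p - δ, p + δ]
  have hphi : ∀ t : ℝ, phi q p0 p1 t
      = (1 / (1 - q)) * Real.log (Psi p q ((δ * (1 - 2 * t)) ^ 2)) := by
    intro t
    have hq1 : q ≠ 1 := by linarith
    unfold phi renyi
    rw [if_neg hq1]
    obtain ⟨e0, e1, e2⟩ := bernSum_two (path p0 p1 t)
    rw [Finset.sum_range_succ, Finset.sum_range_succ, Finset.sum_range_one, e0, e1, e2]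
    unfold Psi
    have x0 : path p0 p1 t 0 = p + δ * (1 - 2 * t) := by simp [path, p0, p1]; ring
    have x1 : path p0 p1 t 1 = p - δ * (1 - 2 * t) := by simp [path, p0, p1]; ring
    rw [x0, x1]
    congr 4
    · congr 1; ring
    · congr 1; ring
    · ring
  have hstrict : StrictConvexOn ℝ (Set.Icc (0:ℝ) 1) (phi q p0 p1) := by
    refine ⟨convex_Icc _ _, ?_⟩
    intro x hx y hy hxy a b ha hb hab
    have hx' : δ * (1 - 2 * x) ∈ Set.Icc (-δ) δ := by
      constructor <;> nlinarith [hx.1, hx.2]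
    have hy' : δ * (1 - 2 * y) ∈ Set.Icc (-δ) δ := by
      constructor <;> nlinarith [hy.1, hy.2]
    have hne : δ * (1 - 2 * x) ≠ δ * (1 - 2 * y) := by
      intro h
      apply hxy
      have := mul_left_cancel₀ hδ.ne' h
      linarith
    have := hsc.2 hx' hy' hne ha hb hab
    rw [hphi, hphi, hphi]
    simp only [smul_eq_mul] at this ⊢
    convert this using 5
    have hb' : b = 1 - a := by linarith
    subst hb'
    ring
  refine ⟨2, by norm_num, p0, p1, ?_, ?_, hstrict.convexOn, ?_⟩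
  · intro i
    fin_cases i
    · constructor <;> simp [p0] <;> linarith
    · constructor <;> simp [p0] <;> linarith
  · intro i
    fin_cases i
    · constructor <;> simp [p1] <;> linarith
    · constructor <;> simp [p1] <;> linarith
  · rintro ⟨α, β, h⟩
    have i0 : (0:ℝ) ∈ Set.Icc (0:ℝ) 1 := by simp
    have i1 : (1:ℝ) ∈ Set.Icc (0:ℝ) 1 := by simp
    have := hstrict.2 i0 i1 (by norm_num) (show (0:ℝ) < 1 / 2 by norm_num)
      (show (0:ℝ) < 1 / 2 by norm_num) (by norm_num)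
    simp only [smul_eq_mul] at this
    rw [h 0 (by simp), h 1 (by simp), h (1 / 2 * 0 + 1 / 2 * 1) (by constructor <;> norm_num)] at this
    linarith

theorem not_propI {c : ℝ} (hc : 1 < c) : ¬ PropI c := by
  intro h
  obtain ⟨m, hm, p0, p1, h0, h1, hconv, haff⟩ := propII_one c hc
  have hconc := h c (by linarith) le_rfl m hm p0 p1 h0 h1
  apply haff
  refine ⟨phi c p0 p1 0, phi c p0 p1 1 - phi c p0 p1 0, fun t ht => ?_⟩
  have i0 : (0:ℝ) ∈ Set.Icc (0:ℝ) 1 := by simp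
  have i1 : (1:ℝ) ∈ Set.Icc (0:ℝ) 1 := by simp
  have e1 := hconv.2 i0 i1 (show (0:ℝ) ≤ 1 - t by linarith [ht.2]) ht.1 (by ring)
  have e2 := hconc.2 i0 i1 (show (0:ℝ) ≤ 1 - t by linarith [ht.2]) ht.1 (by ring)
  simp only [smul_eq_mul, mul_zero, mul_one, zero_add] at e1 e2
  linarith


theorem AA_coeff_zero_prod {ι : Type*} [DecidableEq ι] (q p c : ι → ℝ) (S : Finset ι) :
    (AA q p c S).coeff 0 = ∏ i ∈ S, (C (q i) + C (p i) * X) := by
  induction S using Finset.induction_on with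
  | empty => simp [AA_empty]
  | insert a S ha ih => rw [AA_coeff_zero _ _ _ ha, Finset.prod_insert ha, ih]

theorem bernSum_eq {m : ℕ} (p d : Fin m → ℝ) (k : ℕ) :
    bernSum p k = ((AA (fun i => 1 - p i) p d Finset.univ).coeff 0).coeff k := by
  rw [AA_coeff_zero_prod]
  have h1 : ∏ i : Fin m, (C (1 - p i) + C (p i) * X : ℝ[X])
      = ∏ i : Fin m, (C (p i) * X + C (1 - p i)) := by
    apply Finset.prod_congr rfl; intro i _; ring
  rw [h1, Finset.prod_add, finsetSum_coeff]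
  unfold bernSum
  rw [Finset.powersetCard_eq_filter, Finset.sum_filter]
  apply Finset.sum_congr rfl
  intro A _
  rw [Finset.prod_mul_distrib, Finset.prod_const, ← map_prod C, ← map_prod C, mul_assoc,
    coeff_C_mul, coeff_mul_C, coeff_X_pow, ← Finset.compl_eq_univ_sdiff]
  by_cases h : A.card = k
  · rw [if_pos h, if_pos h.symm]; ring
  · rw [if_neg h, if_neg (Ne.symm h)]; ring

theorem bernSum_nonneg {m : ℕ} (p : Fin m → ℝ) (hp : ∀ i, p i ∈ Set.Icc (0:ℝ) 1) (k : ℕ) :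
    0 ≤ bernSum p k := by
  unfold bernSum
  apply Finset.sum_nonneg
  intro A _
  apply mul_nonneg
  · exact Finset.prod_nonneg (fun i _ => (hp i).1)
  · exact Finset.prod_nonneg (fun i _ => by linarith [(hp i).2])

theorem bernSum_sum {m : ℕ} (p : Fin m → ℝ) :
    ∑ k ∈ Finset.range (m + 1), bernSum p k = 1 := by
  have h1 : ∀ k, bernSum p k
      = (∏ i : Fin m, (C (1 - p i) + C (p i) * X : ℝ[X])).coeff k := by
    intro k
    rw [bernSum_eq p p k, AA_coeff_zero_prod]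
  have h2 : (∏ i : Fin m, (C (1 - p i) + C (p i) * X : ℝ[X])).natDegree < m + 1 := by
    have := natDegree_prod_le (Finset.univ) (fun i : Fin m => (C (1 - p i) + C (p i) * X : ℝ[X]))
    have h3 : ∑ i : Fin m, (C (1 - p i) + C (p i) * X : ℝ[X]).natDegree ≤ ∑ i : Fin m, 1 := by
      apply Finset.sum_le_sum
      intro i _
      rw [add_comm]
      exact natDegree_linear_le
    simp only [Finset.sum_const, Finset.card_univ, Fintype.card_fin, smul_eq_mul, mul_one] at h3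
    omega
  have h4 := eval_eq_sum_range' h2 (1:ℝ)
  simp only [one_pow, mul_one, eval_prod, eval_add, eval_C, eval_mul, eval_X, sub_add_cancel,
    Finset.prod_const_one] at h4
  rw [h4]
  exact Finset.sum_congr rfl (fun k _ => h1 k)

noncomputable def Sq (q : ℝ) {m : ℕ} (p : Fin m → ℝ) : ℝ :=
  ∑ k ∈ Finset.range (m + 1), bernSum p k ^ q

theorem Sq_pos (q : ℝ) {m : ℕ} (p : Fin m → ℝ) (hp : ∀ i, p i ∈ Set.Icc (0:ℝ) 1) :
    0 < Sq q p := by
  unfold Sq
  have hnn : ∀ k ∈ Finset.range (m + 1), 0 ≤ bernSum p k ^ q :=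
    fun k _ => Real.rpow_nonneg (bernSum_nonneg p hp k) q
  rcases (Finset.sum_nonneg hnn).eq_or_lt with h | h
  · exfalso
    have h0 := (Finset.sum_eq_zero_iff_of_nonneg hnn).1 h.symm
    have h1 : ∑ k ∈ Finset.range (m + 1), bernSum p k = 0 := by
      apply Finset.sum_eq_zero
      intro k hk
      by_contra hne
      have hpos : 0 < bernSum p k := lt_of_le_of_ne (bernSum_nonneg p hp k) (Ne.symm hne)
      exact absurd (h0 k hk) (Real.rpow_pos_of_pos hpos q).ne'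
    rw [bernSum_sum] at h1
    exact one_ne_zero h1
  · exact h

theorem continuous_bernSum {m : ℕ} (k : ℕ) : Continuous (fun p : Fin m → ℝ => bernSum p k) := by
  unfold bernSum
  fun_prop

theorem continuous_Sq {q : ℝ} (hq : 0 < q) {m : ℕ} : Continuous (fun p : Fin m → ℝ => Sq q p) := by
  unfold Sq
  apply continuous_finsetSum
  intro k _
  exact (continuous_bernSum k).rpow_const (fun p => Or.inr hq.le)

/-- concavity of `S_q` in the open cube -/
theorem Sq_open {q : ℝ} (hq : 0 < q) (hq1 : q < 1) {m : ℕ} (hm : 1 ≤ m) (p0 p1 : Fin m → ℝ)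
    (h0 : ∀ i, p0 i ∈ Set.Ioo (0:ℝ) 1) (h1 : ∀ i, p1 i ∈ Set.Ioo (0:ℝ) 1)
    (a b : ℝ) (ha : 0 ≤ a) (hb : 0 ≤ b) (hab : a + b = 1) :
    a * Sq q p0 + b * Sq q p1 ≤ Sq q (fun i => a * p0 i + b * p1 i) := by
  have h := concave_open q hq hq1 p0 p1 Finset.univ (by simpa using hm) h0 h1
  have i0 : (0:ℝ) ∈ Set.Icc (0:ℝ) 1 := by simp
  have i1 : (1:ℝ) ∈ Set.Icc (0:ℝ) 1 := by simp
  have h2 := h.2 i0 i1 ha hb hab
  simp only [Finset.card_univ, Fintype.card_fin, smul_eq_mul, mul_zero, mul_one, zero_add,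
    zero_mul, add_zero, one_mul] at h2
  have e0 : Sq q p0 = ∑ k ∈ Finset.range (m + 1), (((AA (fun i => 1 - p0 i) (fun i => p0 i)
        (fun i => p1 i - p0 i) Finset.univ).coeff 0).coeff k) ^ q := by
    unfold Sq
    apply Finset.sum_congr rfl; intro k _; rw [bernSum_eq p0 (fun i => p1 i - p0 i)]
  have e1 : Sq q p1 = ∑ k ∈ Finset.range (m + 1), (((AA (fun i => 1 - (p0 i + (p1 i - p0 i)))
        (fun i => p0 i + (p1 i - p0 i)) (fun i => p1 i - p0 i) Finset.univ).coeff 0).coeff k) ^ q := by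
    unfold Sq
    apply Finset.sum_congr rfl; intro k _; rw [bernSum_eq p1 (fun i => p1 i - p0 i)]
    simp only [add_sub_cancel]
  have e2 : Sq q (fun i => a * p0 i + b * p1 i)
      = ∑ k ∈ Finset.range (m + 1), (((AA (fun i => 1 - (p0 i + b * (p1 i - p0 i)))
        (fun i => p0 i + b * (p1 i - p0 i)) (fun i => p1 i - p0 i) Finset.univ).coeff 0).coeff k) ^ q := by
    have : (fun i => a * p0 i + b * p1 i) = fun i => p0 i + b * (p1 i - p0 i) := by
      funext i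
      have : a = 1 - b := by linarith
      rw [this]; ring
    rw [this]
    unfold Sq
    apply Finset.sum_congr rfl; intro k _; rw [bernSum_eq _ (fun i => p1 i - p0 i)]
  rw [e0, e1, e2]
  exact h2

theorem Sq_closed {q : ℝ} (hq : 0 < q) (hq1 : q < 1) {m : ℕ} (hm : 1 ≤ m) (p0 p1 : Fin m → ℝ)
    (h0 : ∀ i, p0 i ∈ Set.Icc (0:ℝ) 1) (h1 : ∀ i, p1 i ∈ Set.Icc (0:ℝ) 1)
    (a b : ℝ) (ha : 0 ≤ a) (hb : 0 ≤ b) (hab : a + b = 1) :
    a * Sq q p0 + b * Sq q p1 ≤ Sq q (fun i => a * p0 i + b * p1 i) := by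
  let sh : (Fin m → ℝ) → ℝ → (Fin m → ℝ) := fun p ε i => (1 - ε) * p i + ε * (1 / 2)
  have hsh : ∀ p : Fin m → ℝ, Continuous (fun ε => sh p ε) := by
    intro p; simp only [sh]; fun_prop
  have hsh0 : ∀ p : Fin m → ℝ, sh p 0 = p := by intro p; funext i; simp [sh]
  have hlim : ∀ p : Fin m → ℝ, Tendsto (fun ε => Sq q (sh p ε)) (𝓝[>] 0) (𝓝 (Sq q p)) := by
    intro p
    have h := ((continuous_Sq hq).comp (hsh p)).tendsto 0
    simp only [Function.comp, hsh0] at h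
    exact h.mono_left nhdsWithin_le_nhds
  have hL := ((hlim p0).const_mul a).add ((hlim p1).const_mul b)
  have hR := hlim (fun i => a * p0 i + b * p1 i)
  refine le_of_tendsto_of_tendsto hL hR ?_
  have hev : ∀ᶠ ε in 𝓝[>] (0:ℝ), ε < 1 :=
    (gt_mem_nhds one_pos).filter_mono nhdsWithin_le_nhds
  have hev2 : ∀ᶠ ε in 𝓝[>] (0:ℝ), 0 < ε := self_mem_nhdsWithin
  filter_upwards [hev, hev2] with ε hε1 hε0
  have hin : ∀ p : Fin m → ℝ, (∀ i, p i ∈ Set.Icc (0:ℝ) 1) → ∀ i, sh p ε i ∈ Set.Ioo (0:ℝ) 1 := by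
    intro p hp i
    simp only [sh]
    have := (hp i).1
    have := (hp i).2
    constructor <;> nlinarith
  have := Sq_open hq hq1 hm (sh p0 ε) (sh p1 ε) (hin p0 h0) (hin p1 h1) a b ha hb hab
  refine this.trans (le_of_eq ?_)
  congr 1
  funext i
  simp only [sh]
  have : a = 1 - b := by linarith
  rw [this]; ring

/-- Rényi entropy concavity, `0 < q < 1` -/
theorem renyi_lt_one {q : ℝ} (hq : 0 < q) (hq1 : q < 1) {m : ℕ} (hm : 1 ≤ m) (p0 p1 : Fin m → ℝ)
    (h0 : ∀ i, p0 i ∈ Set.Icc (0:ℝ) 1) (h1 : ∀ i, p1 i ∈ Set.Icc (0:ℝ) 1)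
    (a b : ℝ) (ha : 0 ≤ a) (hb : 0 ≤ b) (hab : a + b = 1) :
    a * renyi q m (bernSum p0) + b * renyi q m (bernSum p1)
      ≤ renyi q m (bernSum (fun i => a * p0 i + b * p1 i)) := by
  unfold renyi
  rw [if_neg hq1.ne, if_neg hq1.ne, if_neg hq1.ne]
  have hS := Sq_closed hq hq1 hm p0 p1 h0 h1 a b ha hb hab
  have s0 := Sq_pos q p0 h0
  have s1 := Sq_pos q p1 h1
  unfold Sq at hS s0 s1
  set A := ∑ k ∈ Finset.range (m + 1), bernSum p0 k ^ q
  set B := ∑ k ∈ Finset.range (m + 1), bernSum p1 k ^ q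
  have hlog := strictConcaveOn_log_Ioi.concaveOn.2 (show A ∈ Set.Ioi (0:ℝ) from s0)
    (show B ∈ Set.Ioi (0:ℝ) from s1) ha hb hab
  simp only [smul_eq_mul] at hlog
  have hpos : 0 < a * A + b * B := by
    rcases ha.eq_or_lt with h | h
    · have : b = 1 := by linarith
      rw [← h, this]; linarith
    · have := mul_pos h s0
      have := mul_nonneg hb s1.le
      linarith
  have hmono := Real.log_le_log hpos hS
  have hq' : 0 < 1 / (1 - q) := by apply one_div_pos.2; linarith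
  have := mul_le_mul_of_nonneg_left (hlog.trans hmono) hq'.le
  calc a * (1 / (1 - q) * Real.log A) + b * (1 / (1 - q) * Real.log B)
      = 1 / (1 - q) * (a * Real.log A + b * Real.log B) := by ring
    _ ≤ _ := this

theorem renyi_tendsto {m : ℕ} (p : Fin m → ℝ) (hp : ∀ i, p i ∈ Set.Icc (0:ℝ) 1) :
    Tendsto (fun q => renyi q m (bernSum p)) (𝓝[<] 1) (𝓝 (renyi 1 m (bernSum p))) := by
  have hS1 : Sq 1 p = 1 := by
    unfold Sq
    simp only [Real.rpow_one]
    exact bernSum_sum p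
  have hd : HasDerivAt (fun q => Sq q p)
      (∑ k ∈ Finset.range (m + 1), bernSum p k * Real.log (bernSum p k)) 1 := by
    unfold Sq
    apply HasDerivAt.fun_sum
    intro k _
    rcases (bernSum_nonneg p hp k).eq_or_lt with h | h
    · rw [← h]
      have : (fun q : ℝ => (0:ℝ) ^ q) =ᶠ[𝓝 1] fun _ => 0 := by
        filter_upwards [lt_mem_nhds (show (0:ℝ) < 1 by norm_num)] with q hq
        exact Real.zero_rpow hq.ne'
      rw [zero_mul]
      exact (hasDerivAt_const (1:ℝ) (0:ℝ)).congr_of_eventuallyEq this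
    · have := (Real.hasStrictDerivAt_const_rpow h 1).hasDerivAt
      simpa using this
  have hL := hd.log (by rw [hS1]; norm_num)
  rw [hS1, div_one, hasDerivAt_iff_tendsto_slope] at hL
  have hL2 := (hL.mono_left (nhdsWithin_mono 1 (fun x (hx : x < 1) => ne_of_lt hx))).neg
  unfold renyi
  rw [if_pos rfl]
  refine hL2.congr' ?_
  filter_upwards [self_mem_nhdsWithin] with q hq
  have hq' : q < 1 := hq
  rw [if_neg hq'.ne, slope_def_field, hS1, Real.log_one, sub_zero]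
  have h1 : (1 - q) ≠ 0 := by linarith
  have h2 : (q - 1) ≠ 0 := by
    intro h; apply h1; linarith
  unfold Sq
  field_simp
  ring

theorem renyi_le_one {q : ℝ} (hq : 0 < q) (hq1 : q ≤ 1) {m : ℕ} (hm : 1 ≤ m) (p0 p1 : Fin m → ℝ)
    (h0 : ∀ i, p0 i ∈ Set.Icc (0:ℝ) 1) (h1 : ∀ i, p1 i ∈ Set.Icc (0:ℝ) 1)
    (a b : ℝ) (ha : 0 ≤ a) (hb : 0 ≤ b) (hab : a + b = 1) :
    a * renyi q m (bernSum p0) + b * renyi q m (bernSum p1)
      ≤ renyi q m (bernSum (fun i => a * p0 i + b * p1 i)) := by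
  rcases hq1.eq_or_lt with h | h
  · subst h
    have hmid : ∀ i, a * p0 i + b * p1 i ∈ Set.Icc (0:ℝ) 1 := by
      intro i
      have := convex_Icc (0:ℝ) 1 (h0 i) (h1 i) ha hb hab
      simpa using this
    refine le_of_tendsto_of_tendsto (((renyi_tendsto p0 h0).const_mul a).add
      ((renyi_tendsto p1 h1).const_mul b)) (renyi_tendsto _ hmid) ?_
    have hev : ∀ᶠ q in 𝓝[<] (1:ℝ), 0 < q :=
      (lt_mem_nhds one_pos).filter_mono nhdsWithin_le_nhds
    have hev2 : ∀ᶠ q in 𝓝[<] (1:ℝ), q < 1 := self_mem_nhdsWithin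
    filter_upwards [hev, hev2] with q hq0 hq1
    exact renyi_lt_one hq0 hq1 hm p0 p1 h0 h1 a b ha hb hab
  · exact renyi_lt_one hq h hm p0 p1 h0 h1 a b ha hb hab

theorem propI_one : PropI 1 := by
  intro q hq hq1 m hm p0 p1 h0 h1
  refine ⟨convex_Icc 0 1, ?_⟩
  intro s hs t ht a b ha hb hab
  have hin : ∀ s ∈ Set.Icc (0:ℝ) 1, ∀ i, path p0 p1 s i ∈ Set.Icc (0:ℝ) 1 := by
    intro s hs i
    have := convex_Icc (0:ℝ) 1 (h0 i) (h1 i) (show 0 ≤ 1 - s by linarith [hs.2]) hs.1 (by ring)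
    simpa [path] using this
  have h := renyi_le_one hq hq1 hm (path p0 p1 s) (path p0 p1 t) (hin s hs) (hin t ht) a b ha hb hab
  have e : (fun i => a * path p0 p1 s i + b * path p0 p1 t i)
      = path p0 p1 (a • s + b • t) := by
    funext i
    simp only [path, smul_eq_mul]
    have : a = 1 - b := by linarith
    rw [this]; ring
  rw [e] at h
  simpa [phi, smul_eq_mul] using h

/-- The critical value exists, is unique and equals `1`. -/
theorem critical_iff (c : ℝ) (hc : 0 < c) : (PropI c ∧ PropII c) ↔ c = 1 := by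
  constructor
  · rintro ⟨hI, hII⟩
    rcases lt_trichotomy c 1 with h | h | h
    · exfalso
      obtain ⟨m, hm, p0, p1, h0, h1, hconv, haff⟩ := hII 1 h
      have hconc := propI_one 1 one_pos le_rfl m hm p0 p1 h0 h1
      apply haff
      refine ⟨phi 1 p0 p1 0, phi 1 p0 p1 1 - phi 1 p0 p1 0, fun t ht => ?_⟩
      have i0 : (0:ℝ) ∈ Set.Icc (0:ℝ) 1 := by simp
      have i1 : (1:ℝ) ∈ Set.Icc (0:ℝ) 1 := by simp
      have e1 := hconv.2 i0 i1 (show (0:ℝ) ≤ 1 - t by linarith [ht.2]) ht.1 (by ring)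
      have e2 := hconc.2 i0 i1 (show (0:ℝ) ≤ 1 - t by linarith [ht.2]) ht.1 (by ring)
      simp only [smul_eq_mul, mul_zero, mul_one, zero_add] at e1 e2
      linarith
    · exact h
    · exact absurd hI (not_propI h)
  · rintro rfl
    exact ⟨propI_one, propII_one⟩

/-- The critical value exists and equals `1`: for `c > 0`, properties (i) and (ii) both hold for
`c` if and only if `c = 1`. In particular such a value exists, and `2` is not critical. -/
theorem result :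
    (∀ c : ℝ, 0 < c → ((PropI c ∧ PropII c) ↔ c = 1)) ∧
      (∃ c : ℝ, 0 < c ∧ PropI c ∧ PropII c) ∧ ¬ (PropI 2 ∧ PropII 2) :=
  ⟨critical_iff, ⟨1, one_pos, propI_one, propII_one⟩, fun h => not_propI (by norm_num) h.1⟩

end Pool.Agent.Results.MP_737f38_pr.CriticalValueOne
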