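import Mathlib

set_option autoImplicit false

open Filter Topology

namespace Pool.Agent.Results.MP_737f38_pr.NoValueAboveOne

/-! For every order `q > 1` there is an affine path of Bernoulli sums along which the `q`-Rényi
entropy is convex and not affine; hence no critical value exceeds `1` and the conjectured critical
value `2` fails. -/

/-- The mass function of a Bernoulli sum: `bernSum p k` is the probability that
`X₁ + ⋯ + X_m = k` for independent `X_i ∼ Bernoulli (p i)`, i.e. the sum over all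
`k`-element sets `A` of indices of `∏_{i ∈ A} p i * ∏_{i ∉ A} (1 - p i)`. -/
noncomputable def bernSum {m : ℕ} (p : Fin m → ℝ) (k : ℕ) : ℝ :=
  ∑ A ∈ (Finset.univ : Finset (Fin m)).powersetCard k,
    (∏ i ∈ A, p i) * ∏ i ∈ Aᶜ, (1 - p i)

/-- The `q`-Rényi entropy of a mass function on `{0, …, m}` (Shannon entropy for `q = 1`). -/
noncomputable def renyi (q : ℝ) (m : ℕ) (P : ℕ → ℝ) : ℝ :=
  if q = 1 then - ∑ k ∈ Finset.range (m + 1), P k * Real.log (P k)
  else (1 / (1 - q)) * Real.log (∑ k ∈ Finset.range (m + 1), P k ^ q)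

/-- The affine path between two parameter vectors. -/
def path {m : ℕ} (p0 p1 : Fin m → ℝ) (t : ℝ) : Fin m → ℝ :=
  fun i => (1 - t) * p0 i + t * p1 i

/-- `φ_q(t) = H_q(P_{p(t)})` along the affine path from `p0` to `p1`. -/
noncomputable def phi (q : ℝ) {m : ℕ} (p0 p1 : Fin m → ℝ) (t : ℝ) : ℝ :=
  renyi q m (bernSum (path p0 p1 t))

/-- Property (i) for the value `c`. -/
def PropI (c : ℝ) : Prop :=
  ∀ q : ℝ, 0 < q → q ≤ c → ∀ m : ℕ, 1 ≤ m → ∀ p0 p1 : Fin m → ℝ,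
    (∀ i, p0 i ∈ Set.Icc (0:ℝ) 1) → (∀ i, p1 i ∈ Set.Icc (0:ℝ) 1) →
      ConcaveOn ℝ (Set.Icc (0:ℝ) 1) (phi q p0 p1)

/-- Property (ii) for the value `c`. -/
def PropII (c : ℝ) : Prop :=
  ∀ q : ℝ, c < q → ∃ m : ℕ, 1 ≤ m ∧ ∃ p0 p1 : Fin m → ℝ,
    (∀ i, p0 i ∈ Set.Icc (0:ℝ) 1) ∧ (∀ i, p1 i ∈ Set.Icc (0:ℝ) 1) ∧
      ConvexOn ℝ (Set.Icc (0:ℝ) 1) (phi q p0 p1) ∧
        ¬ ∃ α β : ℝ, ∀ t ∈ Set.Icc (0:ℝ) 1, phi q p0 p1 t = α + β * t


theorem aux_convex_near (f : ℝ → ℝ) (hf : ContDiffAt ℝ 2 f 0) (hpos : 0 < deriv (deriv f) 0) :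
    ∃ δ0 > 0, ∀ δ > 0, δ ≤ δ0 → StrictConvexOn ℝ (Set.Icc (-δ) δ) f := by
  have h1 : ContDiffAt ℝ 1 (deriv f) 0 := hf.derivWithin (by norm_num)
  have h2 : ContDiffAt ℝ 0 (deriv (deriv f)) 0 := h1.derivWithin (by norm_num)
  have h3 : ∀ᶠ x in 𝓝 (0:ℝ), 0 < deriv (deriv f) x :=
    h2.continuousAt.eventually (lt_mem_nhds hpos)
  have h4 : ∀ᶠ x in 𝓝 (0:ℝ), ContDiffAt ℝ 2 f x := hf.eventually (by simp)
  obtain ⟨δ0, hδ0, hb⟩ := Metric.eventually_nhds_iff.1 (h3.and h4)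
  refine ⟨δ0 / 2, by positivity, fun δ hδ hle => ?_⟩
  have hmem : ∀ x ∈ Set.Icc (-δ) δ, dist x 0 < δ0 := by
    intro x hx
    rw [Real.dist_eq, sub_zero, abs_lt]
    constructor <;> linarith [hx.1, hx.2]
  apply strictConvexOn_of_deriv2_pos (convex_Icc _ _)
  · intro x hx
    exact (hb (hmem x hx)).2.continuousAt.continuousWithinAt
  · intro x hx
    exact (hb (hmem x (interior_subset hx))).1

theorem aux_sq (L : ℝ → ℝ) (hL : ContDiffAt ℝ 2 L 0) (hpos : 0 < deriv L 0) :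
    ContDiffAt ℝ 2 (fun τ => L (τ ^ 2)) 0 ∧ 0 < deriv (deriv (fun τ => L (τ ^ 2))) 0 := by
  have hsq : ContDiffAt ℝ 2 (fun τ : ℝ => τ ^ 2) 0 := by fun_prop
  have hL' : ContDiffAt ℝ 2 L ((fun τ : ℝ => τ ^ 2) 0) := by simpa using hL
  refine ⟨ContDiffAt.comp (g := L) (f := fun τ : ℝ => τ ^ 2) 0 hL' hsq, ?_⟩
  have h4 : ∀ᶠ x in 𝓝 (0:ℝ), ContDiffAt ℝ 2 L x := hL.eventually (by simp)
  have h5 : ∀ᶠ τ in 𝓝 (0:ℝ), ContDiffAt ℝ 2 L (τ ^ 2) := by
    have : Tendsto (fun τ : ℝ => τ ^ 2) (𝓝 0) (𝓝 0) := by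
      have := (continuous_pow (M := ℝ) 2).tendsto 0
      simpa using this
    exact this.eventually h4
  have h6 : deriv (fun τ => L (τ ^ 2)) =ᶠ[𝓝 0] fun τ => deriv L (τ ^ 2) * (2 * τ) := by
    filter_upwards [h5] with τ hτ
    have hd : HasDerivAt L (deriv L (τ ^ 2)) (τ ^ 2) :=
      (hτ.differentiableAt (by norm_num)).hasDerivAt
    have hp : HasDerivAt (fun τ : ℝ => τ ^ 2) (2 * τ) τ := by
      simpa using hasDerivAt_pow 2 τ
    exact (HasDerivAt.comp (h₂ := L) (h := fun τ : ℝ => τ ^ 2) τ hd hp).deriv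
  rw [h6.deriv_eq]
  have h7 : ContDiffAt ℝ 1 (deriv L) 0 := hL.derivWithin (by norm_num)
  have h8 : DifferentiableAt ℝ (fun τ => deriv L (τ ^ 2)) 0 := by
    have hL'' : DifferentiableAt ℝ (deriv L) ((fun τ : ℝ => τ ^ 2) 0) := by
      simpa using h7.differentiableAt (by norm_num)
    exact DifferentiableAt.comp (g := deriv L) (f := fun τ : ℝ => τ ^ 2) (0:ℝ) hL'' (hsq.differentiableAt (by norm_num))
  have h9 : HasDerivAt (fun τ : ℝ => deriv L (τ ^ 2) * (2 * τ))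
      (deriv (fun τ => deriv L (τ ^ 2)) 0 * (2 * 0) + deriv L (0 ^ 2) * (2 * 1)) 0 := by
    exact h8.hasDerivAt.mul ((hasDerivAt_id (0:ℝ)).const_mul 2)
  rw [h9.deriv]
  simp
  linarith

noncomputable def Psi (p q y : ℝ) : ℝ :=
  ((1 - p) ^ 2 - y) ^ q + (2 * p * (1 - p) + 2 * y) ^ q + (p ^ 2 - y) ^ q

theorem aux_L (p q : ℝ) (hp : 0 < p) (hp1 : p < 1) (hq : 1 < q)
    (hcond : 2 * (2 * p * (1 - p)) ^ (q - 1) < ((1 - p) ^ 2) ^ (q - 1)) :
    ContDiffAt ℝ 2 (fun y => (1 / (1 - q)) * Real.log (Psi p q y)) 0 ∧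
      0 < deriv (fun y => (1 / (1 - q)) * Real.log (Psi p q y)) 0 := by
  have a0 : 0 < (1 - p) ^ 2 := by have : 0 < 1 - p := by linarith
                                  positivity
  have a1 : 0 < 2 * p * (1 - p) := by have : 0 < 1 - p := by linarith
                                      positivity
  have a2 : 0 < p ^ 2 := by positivity
  have hPsi : 0 < Psi p q 0 := by
    unfold Psi
    simp only [sub_zero, mul_zero, add_zero]
    have := Real.rpow_pos_of_pos a0 q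
    have := Real.rpow_pos_of_pos a1 q
    have := Real.rpow_pos_of_pos a2 q
    linarith
  have hC : ContDiffAt ℝ 2 (Psi p q) 0 := by
    unfold Psi
    refine ContDiffAt.add (ContDiffAt.add ?_ ?_) ?_
    · apply ContDiffAt.rpow_const_of_ne (by fun_prop)
      simp; linarith
    · apply ContDiffAt.rpow_const_of_ne (by fun_prop)
      simp; constructor <;> linarith
    · apply ContDiffAt.rpow_const_of_ne (by fun_prop)
      simp; linarith
  have hD : HasDerivAt (Psi p q)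
      (-(q * ((1 - p) ^ 2) ^ (q - 1)) + 2 * (q * (2 * p * (1 - p)) ^ (q - 1))
        - q * (p ^ 2) ^ (q - 1)) 0 := by
    unfold Psi
    have e0 : HasDerivAt (fun y : ℝ => (1 - p) ^ 2 - y) (-1) 0 := by
      simpa using (hasDerivAt_id (0:ℝ)).const_sub ((1 - p) ^ 2)
    have e1 : HasDerivAt (fun y : ℝ => 2 * p * (1 - p) + 2 * y) 2 0 := by
      simpa using ((hasDerivAt_id (0:ℝ)).const_mul 2).const_add (2 * p * (1 - p))
    have e2 : HasDerivAt (fun y : ℝ => p ^ 2 - y) (-1) 0 := by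
      simpa using (hasDerivAt_id (0:ℝ)).const_sub (p ^ 2)
    have f0 := e0.rpow_const (p := q) (Or.inl (by simp; linarith))
    have f1 := e1.rpow_const (p := q) (Or.inl (by simp; constructor <;> linarith))
    have f2 := e2.rpow_const (p := q) (Or.inl (by simp; linarith))
    simp only [sub_zero, mul_zero, add_zero] at f0 f1 f2
    have h := (f0.add f1).add f2
    refine h.congr_deriv ?_
    ring
  refine ⟨contDiffAt_const.mul (hC.log hPsi.ne'), ?_⟩
  have hE := (hD.log hPsi.ne').const_mul (1 / (1 - q))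
  rw [hE.deriv]
  have b2 := Real.rpow_pos_of_pos a2 (q - 1)
  have hn : -(q * ((1 - p) ^ 2) ^ (q - 1)) + 2 * (q * (2 * p * (1 - p)) ^ (q - 1))
        - q * (p ^ 2) ^ (q - 1) < 0 := by nlinarith
  have h1q : 1 / (1 - q) < 0 := by
    apply div_neg_of_pos_of_neg one_pos; linarith
  exact mul_pos_of_neg_of_neg h1q (div_neg_of_neg_of_pos hn hPsi)

theorem exists_p (q : ℝ) (hq : 1 < q) : ∃ p : ℝ, 0 < p ∧ p < 1 ∧
    2 * (2 * p * (1 - p)) ^ (q - 1) < ((1 - p) ^ 2) ^ (q - 1) := by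
  have hq1 : 0 < q - 1 := by linarith
  have hcont : Tendsto (fun p : ℝ => ((1 - p) ^ 2) ^ (q - 1) - 2 * (2 * p * (1 - p)) ^ (q - 1))
      (𝓝 0) (𝓝 (((1 - 0) ^ 2) ^ (q - 1) - 2 * (2 * 0 * (1 - 0)) ^ (q - 1))) := by
    apply Continuous.tendsto
    refine Continuous.sub ?_ (continuous_const.mul ?_)
    · exact Continuous.rpow_const (by fun_prop) (fun x => Or.inr hq1.le)
    · exact Continuous.rpow_const (by fun_prop) (fun x => Or.inr hq1.le)
  have hlim : ((1 - (0:ℝ)) ^ 2) ^ (q - 1) - 2 * (2 * 0 * (1 - 0)) ^ (q - 1) = 1 := by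
    simp [Real.zero_rpow hq1.ne']
  rw [hlim] at hcont
  have h1 : ∀ᶠ p in 𝓝 (0:ℝ), 0 < ((1 - p) ^ 2) ^ (q - 1) - 2 * (2 * p * (1 - p)) ^ (q - 1) :=
    hcont.eventually (lt_mem_nhds one_pos)
  have h2 : ∀ᶠ p in 𝓝 (0:ℝ), p < 1 := gt_mem_nhds one_pos
  have h3 : ∃ᶠ p in 𝓝[>] (0:ℝ), 0 < p := by
    apply Filter.Eventually.frequently
    exact self_mem_nhdsWithin
  have h4 : ∀ᶠ p in 𝓝[>] (0:ℝ), p < 1 ∧ 0 < ((1 - p) ^ 2) ^ (q - 1) - 2 * (2 * p * (1 - p)) ^ (q - 1) :=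
    (h2.and h1).filter_mono nhdsWithin_le_nhds
  obtain ⟨p, hp, hp1, hp2⟩ := (h3.and_eventually h4).exists
  exact ⟨p, hp, hp1, by linarith⟩

theorem bernSum_two (p : Fin 2 → ℝ) :
    bernSum p 0 = (1 - p 0) * (1 - p 1) ∧
    bernSum p 1 = p 0 * (1 - p 1) + p 1 * (1 - p 0) ∧
    bernSum p 2 = p 0 * p 1 := by
  have c0 : (Finset.univ : Finset (Fin 2)).powersetCard 0 = {∅} := by decide
  have c1 : (Finset.univ : Finset (Fin 2)).powersetCard 1 = {{0}, {1}} := by decide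
  have c2 : (Finset.univ : Finset (Fin 2)).powersetCard 2 = {{0, 1}} := by decide
  have d0 : (∅ : Finset (Fin 2))ᶜ = {0, 1} := by decide
  have d1 : ({0} : Finset (Fin 2))ᶜ = {1} := by decide
  have d2 : ({1} : Finset (Fin 2))ᶜ = {0} := by decide
  have d3 : ({0, 1} : Finset (Fin 2))ᶜ = ∅ := by decide
  refine ⟨?_, ?_, ?_⟩
  · unfold bernSum; rw [c0, Finset.sum_singleton, d0]; simp
  · unfold bernSum; rw [c1, Finset.sum_pair (by decide), d1, d2]; simp
  · unfold bernSum; rw [c2, Finset.sum_singleton, d3]; simp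

theorem propII_one : PropII 1 := by
  intro q hq
  obtain ⟨p, hp, hp1, hcond⟩ := exists_p q hq
  obtain ⟨hC, hpos⟩ := aux_L p q hp hp1 hq hcond
  obtain ⟨hC2, hpos2⟩ := aux_sq _ hC hpos
  obtain ⟨δ0, hδ0, hconv⟩ := aux_convex_near _ hC2 hpos2
  obtain ⟨δ, hδ, hδle, hδp, hδp1⟩ : ∃ δ > 0, δ ≤ δ0 ∧ δ ≤ p ∧ δ ≤ 1 - p :=
    ⟨min δ0 (min p (1 - p)), by
      have : 0 < 1 - p := by linarith
      positivity, min_le_left _ _, (min_le_right _ _).trans (min_le_left _ _),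
      (min_le_right _ _).trans (min_le_right _ _)⟩
  have hsc := hconv δ hδ hδle
  let p0 : Fin 2 → ℝ := ![p + δ, p - δ]
  let p1 : Fin 2 → ℝ := ![p - δ, p + δ]
  have hphi : ∀ t : ℝ, phi q p0 p1 t
      = (1 / (1 - q)) * Real.log (Psi p q ((δ * (1 - 2 * t)) ^ 2)) := by
    intro t
    have hq1 : q ≠ 1 := by linarith
    unfold phi renyi
    rw [if_neg hq1]
    obtain ⟨e0, e1, e2⟩ := bernSum_two (path p0 p1 t)
    rw [Finset.sum_range_succ, Finset.sum_range_succ, Finset.sum_range_one, e0, e1, e2]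
    unfold Psi
    have x0 : path p0 p1 t 0 = p + δ * (1 - 2 * t) := by simp [path, p0, p1]; ring
    have x1 : path p0 p1 t 1 = p - δ * (1 - 2 * t) := by simp [path, p0, p1]; ring
    rw [x0, x1]
    congr 4
    · congr 1; ring
    · congr 1; ring
    · ring
  have hstrict : StrictConvexOn ℝ (Set.Icc (0:ℝ) 1) (phi q p0 p1) := by
    refine ⟨convex_Icc _ _, ?_⟩
    intro x hx y hy hxy a b ha hb hab
    have hx' : δ * (1 - 2 * x) ∈ Set.Icc (-δ) δ := by
      constructor <;> nlinarith [hx.1, hx.2]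
    have hy' : δ * (1 - 2 * y) ∈ Set.Icc (-δ) δ := by
      constructor <;> nlinarith [hy.1, hy.2]
    have hne : δ * (1 - 2 * x) ≠ δ * (1 - 2 * y) := by
      intro h
      apply hxy
      have := mul_left_cancel₀ hδ.ne' h
      linarith
    have := hsc.2 hx' hy' hne ha hb hab
    rw [hphi, hphi, hphi]
    simp only [smul_eq_mul] at this ⊢
    convert this using 5
    have hb' : b = 1 - a := by linarith
    subst hb'
    ring
  refine ⟨2, by norm_num, p0, p1, ?_, ?_, hstrict.convexOn, ?_⟩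
  · intro i
    fin_cases i
    · constructor <;> simp [p0] <;> linarith
    · constructor <;> simp [p0] <;> linarith
  · intro i
    fin_cases i
    · constructor <;> simp [p1] <;> linarith
    · constructor <;> simp [p1] <;> linarith
  · rintro ⟨α, β, h⟩
    have i0 : (0:ℝ) ∈ Set.Icc (0:ℝ) 1 := by simp
    have i1 : (1:ℝ) ∈ Set.Icc (0:ℝ) 1 := by simp
    have := hstrict.2 i0 i1 (by norm_num) (show (0:ℝ) < 1 / 2 by norm_num)
      (show (0:ℝ) < 1 / 2 by norm_num) (by norm_num)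
    simp only [smul_eq_mul] at this
    rw [h 0 (by simp), h 1 (by simp), h (1 / 2 * 0 + 1 / 2 * 1) (by constructor <;> norm_num)] at this
    linarith

theorem not_propI {c : ℝ} (hc : 1 < c) : ¬ PropI c := by
  intro h
  obtain ⟨m, hm, p0, p1, h0, h1, hconv, haff⟩ := propII_one c hc
  have hconc := h c (by linarith) le_rfl m hm p0 p1 h0 h1
  apply haff
  refine ⟨phi c p0 p1 0, phi c p0 p1 1 - phi c p0 p1 0, fun t ht => ?_⟩
  have i0 : (0:ℝ) ∈ Set.Icc (0:ℝ) 1 := by simp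
  have i1 : (1:ℝ) ∈ Set.Icc (0:ℝ) 1 := by simp
  have e1 := hconv.2 i0 i1 (show (0:ℝ) ≤ 1 - t by linarith [ht.2]) ht.1 (by ring)
  have e2 := hconc.2 i0 i1 (show (0:ℝ) ≤ 1 - t by linarith [ht.2]) ht.1 (by ring)
  simp only [smul_eq_mul, mul_zero, mul_one, zero_add] at e1 e2
  linarith

/-- Property (ii) holds for `c = 1`, property (i) fails for every `c > 1`; in particular the
conjectured value `2` is not critical. -/
theorem result : PropII 1 ∧ (∀ c : ℝ, 1 < c → ¬ PropI c) ∧ ¬ (PropI 2 ∧ PropII 2) :=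
  ⟨propII_one, fun _ hc => not_propI hc, fun h => not_propI (by norm_num) h.1⟩

end Pool.Agent.Results.MP_737f38_pr.NoValueAboveOne
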